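import Pool.Agent.T6.H1.Th.Tail

/-! # No prime of a thin set, and no large prime, divides the index of `B` modulo `p` -/

set_option autoImplicit false

namespace Pool.Agent.T6.H1.Th

open Filter Topology Finset
open Pool.Agent.TH893.BR
open Pool.Agent.H386R2.Artin (PP)
open Pool.Agent.H730R2.AA (ox_cheb)

open Classical in
/-- the elements of `R` up to `y` -/
noncomputable def Ry (R : Set ℕ) (y : ℕ) : Finset ℕ := (range (y + 1)).filter (fun l => l ∈ R)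

open Classical in
lemma mem_Ry {R : Set ℕ} {y l : ℕ} : l ∈ Ry R y ↔ l ≤ y ∧ l ∈ R := by
  unfold Ry
  rw [mem_filter, mem_range, Nat.lt_succ_iff]

/-- the factor of the prime `l` -/
noncomputable def fac (l : ℕ) : ℝ := 1 - 1 / ((l : ℝ) * ((l : ℝ) - 1))

lemma fac_bound (l : ℕ) (hl : l.Prime) : |fac l - 1| ≤ 2 * (1 / (l : ℝ) ^ 2) := by
  have h2 : (2 : ℝ) ≤ l := by exact_mod_cast hl.two_le
  unfold fac
  have e : (1 : ℝ) - 1 / ((l : ℝ) * ((l : ℝ) - 1)) - 1 = -(1 / ((l : ℝ) * ((l : ℝ) - 1))) := by ring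
  have hpos : 0 < (l : ℝ) * ((l : ℝ) - 1) := by nlinarith
  rw [e, abs_neg, abs_of_pos (by positivity), mul_one_div, div_le_div_iff₀ hpos (by positivity)]
  nlinarith

lemma multipliable_fac (R : Set ℕ) (hR : ∀ l ∈ R, l.Prime) : Multipliable (fun l : R => fac (l : ℕ)) := by
  have h1 : Summable (fun n : ℕ => 2 * (1 / (n : ℝ) ^ 2)) :=
    (Real.summable_one_div_nat_pow.2 (by norm_num)).mul_left 2
  have h2 : Summable (fun l : R => fac (l : ℕ) - 1) := by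
    have h3 : Summable (fun l : R => 2 * (1 / ((l : ℕ) : ℝ) ^ 2)) := h1.subtype _
    refine Summable.of_norm_bounded h3 fun l => ?_
    rw [Real.norm_eq_abs]
    exact fac_bound l (hR l l.2)
  have h4 := Real.multipliable_one_add_of_summable h2
  refine h4.congr fun l => ?_
  ring

/-- the partial products converge -/
lemma partial_prod (R : Set ℕ) (hR : ∀ l ∈ R, l.Prime) :
    Tendsto (fun y => ∏ l ∈ Ry R y, fac l) atTop (𝓝 (∏' l : R, fac (l : ℕ))) := by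
  classical
  have h1 := (multipliable_fac R hR).hasProd
  have h2 : Tendsto (fun y : ℕ => (range (y + 1)).subtype (fun l => l ∈ R)) atTop atTop := by
    apply tendsto_atTop_finset_of_monotone
    · intro a b hab l hl
      rw [mem_subtype, mem_range] at hl ⊢
      omega
    · intro l
      exact ⟨l, by rw [mem_subtype, mem_range]; omega⟩
  have h3 := h1.comp h2
  refine h3.congr fun y => ?_
  simp only [Function.comp_apply]
  rw [prod_subtype_eq_prod_filter (fun l => fac l)]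
  apply prod_congr _ fun _ _ => rfl
  ext l
  rw [mem_Ry, mem_filter, mem_range, Nat.lt_succ_iff]

/-- the tail of the series over `R` -/
lemma thin_tail (R : Set ℕ) (hsum : Summable (fun l : R => 1 / ((l : ℕ) : ℝ))) (ε : ℝ) (hε : 0 < ε) :
    ∃ y₀ : ℕ, ∀ y, y₀ ≤ y → ∀ S : Finset ℕ, (∀ l ∈ S, l ∈ R ∧ y < l) → ∑ l ∈ S, 1 / (l : ℝ) ≤ ε := by
  classical
  have h1 : Summable (R.indicator (fun l : ℕ => 1 / (l : ℝ))) := summable_subtype_iff_indicator.1 hsum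
  obtain ⟨s, hs⟩ := summable_iff_vanishing_norm.1 h1 ε hε
  refine ⟨s.sup id, fun y hy S hS => ?_⟩
  have h2 : Disjoint S s := by
    rw [disjoint_left]
    intro l hl hls
    have h3 : l ≤ s.sup id := le_sup (f := id) hls
    have h4 := (hS l hl).2
    omega
  have h3 := hs S h2
  rw [Real.norm_eq_abs] at h3
  have h4 : ∑ l ∈ S, R.indicator (fun l : ℕ => 1 / (l : ℝ)) l = ∑ l ∈ S, 1 / (l : ℝ) := by
    apply sum_congr rfl
    intro l hl
    rw [Set.indicator_of_mem (hS l hl).1]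
  rw [h4] at h3
  exact (le_abs_self _).trans h3.le

/-- the sum of the reciprocals of the primes between `x ^ (1 / 2 - 2 δ)` and `√x log x` -/
lemma big_primes (δ : ℝ) (hδ : 0 < δ) (hδ1 : δ ≤ 1 / 16) : ∃ X : ℕ, ∀ x : ℕ, X ≤ x →
    ∀ S : Finset ℕ, (∀ l ∈ S, l.Prime ∧ l ≤ zz x ∧ (x : ℝ) ^ (1 / 2 - 2 * δ : ℝ) ≤ l) →
    ∑ l ∈ S, 1 / (l : ℝ) ≤ 30 * δ := by
  obtain ⟨M, hM⟩ := Pool.Agent.H305R2.mertens_inv_tendsto
  rw [Metric.tendsto_atTop] at hM
  obtain ⟨N₁, hN₁⟩ := hM (δ / 2) (by positivity)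
  -- the two ends
  have hev1 : ∀ᶠ x : ℝ in atTop, (N₁ : ℝ) + 3 ≤ x ^ (1 / 2 - 3 * δ : ℝ) :=
    (tendsto_rpow_atTop (by linarith)).eventually_ge_atTop _
  have hev2 : ∀ᶠ x : ℝ in atTop, Real.log x ≤ x ^ δ := by
    have h1 := (isLittleO_log_rpow_atTop hδ).bound (show (0 : ℝ) < 1 by norm_num)
    filter_upwards [h1, eventually_ge_atTop (1 : ℝ)] with x hx hx1
    rw [Real.norm_of_nonneg (Real.log_nonneg hx1), Real.norm_of_nonneg (by positivity), one_mul] at hx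
    exact hx
  have hev3 : ∀ᶠ x : ℝ in atTop, Real.log 2 ≤ δ * Real.log x :=
    (Real.tendsto_log_atTop.const_mul_atTop hδ).eventually_ge_atTop _
  obtain ⟨X, hX⟩ := eventually_atTop.1 ((tendsto_natCast_atTop_atTop (R := ℝ)).eventually
    ((hev1.and hev2).and (hev3.and (eventually_ge_atTop (4 : ℝ)))))
  refine ⟨X, fun x hx S hS => ?_⟩
  obtain ⟨⟨h1, h2⟩, h3, h4⟩ := hX x hx
  have hx0 : (0 : ℝ) < x := by linarith
  have hx1 : (1 : ℝ) < x := by linarith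
  have hlog : 0 < Real.log x := Real.log_pos hx1
  have hlog1 : 1 ≤ Real.log x := by
    rw [Real.le_log_iff_exp_le hx0]
    linarith [Real.exp_one_lt_d9]
  have hs1 : 1 ≤ Real.sqrt x := by
    rw [Real.one_le_sqrt]; linarith
  obtain ⟨a, ha⟩ : ∃ a : ℕ, a = ⌊(x : ℝ) ^ (1 / 2 - 3 * δ : ℝ)⌋₊ := ⟨_, rfl⟩
  have ha1 : (a : ℝ) ≤ (x : ℝ) ^ (1 / 2 - 3 * δ : ℝ) := by
    rw [ha]
    exact Nat.floor_le (by positivity)
  have ha2 : (x : ℝ) ^ (1 / 2 - 3 * δ : ℝ) < a + 1 := by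
    rw [ha]
    exact Nat.lt_floor_add_one _
  have haN : N₁ + 2 ≤ a := by
    rw [ha]
    apply Nat.le_floor
    push_cast
    linarith
  have ha0 : (2 : ℝ) ≤ a := by exact_mod_cast (by omega : 2 ≤ a)
  have haz : a ≤ zz x := by
    unfold zz
    apply Nat.le_floor
    refine ha1.trans ?_
    have h5 : (x : ℝ) ^ (1 / 2 - 3 * δ : ℝ) ≤ Real.sqrt x := by
      rw [Real.sqrt_eq_rpow]
      apply Real.rpow_le_rpow_of_exponent_le hx1.le
      linarith
    calc (x : ℝ) ^ (1 / 2 - 3 * δ : ℝ) ≤ Real.sqrt x * 1 := by rw [mul_one]; exact h5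
      _ ≤ _ := mul_le_mul_of_nonneg_left hlog1 (by linarith)
  have hzN : N₁ ≤ zz x := by omega
  have hlx : ∀ l ∈ S, l ∈ ((Icc 1 (zz x)).filter Nat.Prime) \ ((Icc 1 a).filter Nat.Prime) := by
    intro l hl
    obtain ⟨h5, h6, h7⟩ := hS l hl
    rw [Finset.mem_sdiff, mem_filter, mem_filter, mem_Icc, mem_Icc]
    refine ⟨⟨⟨h5.one_le, h6⟩, h5⟩, ?_⟩
    rintro ⟨⟨_, h8⟩, _⟩
    have h9 : (l : ℝ) ≤ a := by exact_mod_cast h8
    have h10 : (x : ℝ) ^ (1 / 2 - 3 * δ : ℝ) < (x : ℝ) ^ (1 / 2 - 2 * δ : ℝ) :=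
      Real.rpow_lt_rpow_of_exponent_lt hx1 (by linarith)
    linarith
  have hsub : (Icc 1 a).filter Nat.Prime ⊆ (Icc 1 (zz x)).filter Nat.Prime := by
    intro l hl
    rw [mem_filter, mem_Icc] at hl ⊢
    exact ⟨⟨hl.1.1, hl.1.2.trans haz⟩, hl.2⟩
  have h5 : ∑ l ∈ S, 1 / (l : ℝ) ≤ ∑ l ∈ ((Icc 1 (zz x)).filter Nat.Prime) \ ((Icc 1 a).filter Nat.Prime), 1 / (l : ℝ) :=
    sum_le_sum_of_subset_of_nonneg hlx fun _ _ _ => by positivity
  have h6 := sum_sdiff hsub (f := fun l : ℕ => (1 : ℝ) / l)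
  have h7 := hN₁ (zz x) hzN
  have h8 := hN₁ a (by omega)
  rw [Real.dist_eq, abs_lt] at h7 h8
  -- the double logarithms
  have hloga : (1 / 2 - 4 * δ) * Real.log x ≤ Real.log a := by
    have h9 : (x : ℝ) ^ (1 / 2 - 3 * δ : ℝ) ≤ 2 * a := by linarith
    have h10 := Real.log_le_log (by positivity) h9
    rw [Real.log_rpow hx0, Real.log_mul (by norm_num) (by linarith)] at h10
    linarith
  have hlogz : Real.log (zz x) ≤ (1 / 2 + δ) * Real.log x := by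
    have h9 : (zz x : ℝ) ≤ Real.sqrt x * Real.log x := Nat.floor_le (by positivity)
    have hz0 : (0 : ℝ) < zz x := by
      have : (a : ℝ) ≤ zz x := by exact_mod_cast haz
      linarith
    have h10 : (zz x : ℝ) ≤ (x : ℝ) ^ (1 / 2 + δ : ℝ) := by
      refine h9.trans ?_
      rw [Real.rpow_add hx0, ← Real.sqrt_eq_rpow]
      exact mul_le_mul_of_nonneg_left h2 (by positivity)
    have h11 := Real.log_le_log hz0 h10
    rwa [Real.log_rpow hx0] at h11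
  have hla : 1 / 4 * Real.log x ≤ Real.log a := by
    refine le_trans ?_ hloga
    apply mul_le_mul_of_nonneg_right _ hlog.le
    linarith
  have hla0 : 0 < Real.log a := by linarith
  have hlz0 : 0 < Real.log (zz x) := by
    have h9 : (a : ℝ) ≤ zz x := by exact_mod_cast haz
    exact lt_of_lt_of_le hla0 (Real.log_le_log (by linarith) h9)
  have hll : Real.log (Real.log (zz x)) - Real.log (Real.log a) ≤ 20 * δ := by
    rw [← Real.log_div hlz0.ne' hla0.ne']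
    have h9 : Real.log (zz x) / Real.log a ≤ 1 + 20 * δ := by
      rw [div_le_iff₀ hla0]
      calc Real.log (zz x) ≤ (1 / 2 + δ) * Real.log x := hlogz
        _ ≤ (1 + 20 * δ) * ((1 / 2 - 4 * δ) * Real.log x) := by
            have : (1 / 2 + δ) ≤ (1 + 20 * δ) * (1 / 2 - 4 * δ) := by nlinarith
            calc (1 / 2 + δ) * Real.log x ≤ ((1 + 20 * δ) * (1 / 2 - 4 * δ)) * Real.log x :=
                  mul_le_mul_of_nonneg_right this hlog.le
              _ = _ := by ring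
        _ ≤ (1 + 20 * δ) * Real.log a := mul_le_mul_of_nonneg_left hloga (by linarith)
    have h10 : 0 < Real.log (zz x) / Real.log a := by positivity
    have h11 := Real.log_le_sub_one_of_pos h10
    linarith
  linarith [h7.2, h8.1]

open Classical in
/-- **the main theorem** -/
theorem main (s : Bs) (R : Set ℕ) (hR : ∀ l ∈ R, l.Prime) (hsum : Summable (fun l : R => 1 / ((l : ℕ) : ℝ)))
    (η : ℕ → ℝ) (hη : Tendsto η atTop (𝓝 0)) :
    Tendsto (fun x : ℕ => (((PP x).filter (fun p : ℕ => ¬ (p : ℤ) ∣ s.B ∧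
      ∀ l : ℕ, l.Prime → (l ∈ R ∨ (p : ℝ) ^ (1 / 2 - η p) ≤ l) → ¬ Idx s.B p l)).card : ℝ) /
      (Nat.primeCounting x : ℝ)) atTop
      (𝓝 ((if (∀ l ∈ s.T, l ∈ R) then s.cf else 1) * ∏' l : R, fac (l : ℕ))) := by
  have hB2 : 2 ≤ s.B.natAbs := by
    by_contra hcon
    push Not at hcon
    have h0 : s.B.natAbs ≠ 0 := Int.natAbs_ne_zero.2 s.B0
    have h1 : s.B.natAbs = 1 := by omega
    rcases Int.natAbs_eq s.B with h | h
    · rw [h1] at h
      exact s.hpow 2 one_lt_two 1 (by rw [h]; norm_num)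
    · rw [h1] at h
      exact s.hpow 3 (by norm_num) (-1) (by rw [h]; norm_num)
  rw [Metric.tendsto_atTop]
  intro ε hε
  obtain ⟨A, hA⟩ : ∃ A : ℝ, A = (if (∀ l ∈ s.T, l ∈ R) then s.cf else 1) * ∏' l : R, fac (l : ℕ) := ⟨_, rfl⟩
  rw [← hA]
  -- the densities for the finite sets
  obtain ⟨Ay, hAy⟩ : ∃ Ay : ℕ → ℝ, Ay = fun y => (if s.T ⊆ Ry R y then s.cf else 1) * ∏ l ∈ Ry R y, fac l := ⟨_, rfl⟩
  have hAlim : Tendsto Ay atTop (𝓝 A) := by
    have h1 : ∀ᶠ y : ℕ in atTop, (if s.T ⊆ Ry R y then s.cf else 1) = (if (∀ l ∈ s.T, l ∈ R) then s.cf else 1) := by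
      filter_upwards [eventually_ge_atTop (s.T.sup id)] with y hy
      have : s.T ⊆ Ry R y ↔ ∀ l ∈ s.T, l ∈ R := by
        constructor
        · intro h l hl
          exact (mem_Ry.1 (h hl)).2
        · intro h l hl
          exact mem_Ry.2 ⟨(le_sup (f := id) hl).trans hy, h l hl⟩
      by_cases h : s.T ⊆ Ry R y
      · rw [if_pos h, if_pos (this.1 h)]
      · rw [if_neg h, if_neg (fun h' => h (this.2 h'))]
    rw [hA]
    refine ((partial_prod R hR).const_mul (if (∀ l ∈ s.T, l ∈ R) then s.cf else 1)).congr' ?_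
    filter_upwards [h1] with y hy
    rw [hAy]
    simp only
    rw [hy]
  obtain ⟨δ, hδdef⟩ : ∃ δ : ℝ, δ = min (1 / 16) (ε / (8 * 1408 * 30)) := ⟨_, rfl⟩
  have hδ : 0 < δ := by rw [hδdef]; positivity
  have hδ1 : δ ≤ 1 / 16 := by rw [hδdef]; exact min_le_left _ _
  have hδ2 : 1408 * (30 * δ) ≤ ε / 8 := by
    have : δ ≤ ε / (8 * 1408 * 30) := by rw [hδdef]; exact min_le_right _ _
    rw [le_div_iff₀ (by norm_num)] at this
    linarith
  obtain ⟨y₁, hy₁⟩ := thin_tail R hsum (ε / (8 * 1408)) (by positivity)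
  obtain ⟨y₂, hy₂⟩ := eventually_atTop.1 ((Metric.tendsto_nhds.1 hAlim) (ε / 4) (by positivity))
  obtain ⟨y, hydef⟩ : ∃ y, y = max y₁ y₂ := ⟨_, rfl⟩
  have hyA : |Ay y - A| < ε / 4 := by
    have := hy₂ y (by rw [hydef]; exact le_max_right _ _)
    rwa [Real.dist_eq] at this
  have hytail := hy₁ y (by rw [hydef]; exact le_max_left _ _)
  have hfin := dens_fin s (Ry R y) (fun l hl => hR l (mem_Ry.1 hl).2)
  have hfin' : Tendsto (fun x : ℕ => (((PP x).filter (fun p => ∀ l ∈ Ry R y, ¬ Idx s.B p l)).card : ℝ) /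
      (Nat.primeCounting x : ℝ)) atTop (𝓝 (Ay y)) := by
    rw [hAy]
    refine hfin.congr fun x => ?_
    rw [Pool.Agent.W171.LG.M_eq, ← sum_filter, sum_const, nsmul_eq_mul, mul_one]
  obtain ⟨x₁, hx₁⟩ := eventually_atTop.1 ((Metric.tendsto_nhds.1 hfin') (ε / 4) (by positivity))
  obtain ⟨x₂, hx₂4, hx₂⟩ := tail s.B hB2
  obtain ⟨x₃, hx₃⟩ := big_primes δ hδ hδ1
  obtain ⟨P₀, hP₀⟩ := eventually_atTop.1 (hη.eventually (gt_mem_nhds hδ))
  -- the small terms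
  have hsm1 : ∀ᶠ x : ℝ in atTop, (P₀ : ℝ) + 1 ≤ x ^ (1 - δ : ℝ) :=
    (tendsto_rpow_atTop (by linarith)).eventually_ge_atTop _
  have hsm2 : ∀ᶠ x : ℝ in atTop, Real.log x ≤ ε / 128 * x ^ δ := by
    have h1 := (isLittleO_log_rpow_atTop hδ).bound (show (0 : ℝ) < ε / 128 by positivity)
    filter_upwards [h1, eventually_ge_atTop (1 : ℝ)] with x hx hx1
    rw [Real.norm_of_nonneg (Real.log_nonneg hx1), Real.norm_of_nonneg (by positivity)] at hx
    exact hx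
  have hsm3 : ∀ᶠ x : ℝ in atTop, 64 * s.B.natAbs / ε ≤ Real.log x :=
    Real.tendsto_log_atTop.eventually_ge_atTop _
  have hsm4 : ∀ᶠ x : ℕ in atTop, (1 + s.B.natAbs : ℝ) * (16 / ε) ≤ (Nat.primeCounting x : ℝ) :=
    (tendsto_natCast_atTop_atTop.comp Nat.tendsto_primeCounting).eventually_ge_atTop _
  obtain ⟨x₄, hx₄⟩ := eventually_atTop.1 (((tendsto_natCast_atTop_atTop (R := ℝ)).eventually
    ((hsm1.and hsm2).and hsm3)).and hsm4)
  refine ⟨max (max x₁ x₂) (max x₃ x₄), fun x hx => ?_⟩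
  have k1 : x₁ ≤ x := (le_max_left _ _).trans ((le_max_left _ _).trans hx)
  have k2 : x₂ ≤ x := (le_max_right _ _).trans ((le_max_left _ _).trans hx)
  have k3 : x₃ ≤ x := (le_max_left _ _).trans ((le_max_right _ _).trans hx)
  have k4 : x₄ ≤ x := (le_max_right _ _).trans ((le_max_right _ _).trans hx)
  obtain ⟨⟨⟨m1, m2⟩, m3⟩, m4⟩ := hx₄ x k4
  have hx4 : 4 ≤ x := hx₂4.trans k2
  have hx4' : (4 : ℝ) ≤ x := by exact_mod_cast hx4
  have hx0 : (0 : ℝ) < x := by linarith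
  have hx1' : (1 : ℝ) < x := by linarith
  have hlog : 0 < Real.log x := Real.log_pos hx1'
  have hcheb := ox_cheb x hx4
  obtain ⟨P, hP⟩ : ∃ P : ℝ, P = (Nat.primeCounting x : ℝ) := ⟨_, rfl⟩
  rw [← hP] at hcheb m4 ⊢
  have hPpos : 0 < P := by
    by_contra hcon
    push Not at hcon
    have : P * Real.log x ≤ 0 := mul_nonpos_of_nonpos_of_nonneg hcon hlog.le
    linarith
  have hxP : (x : ℝ) / Real.log x ≤ 4 * P := by
    rw [div_le_iff₀ hlog]
    linarith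
  obtain ⟨F, hF⟩ : ∃ F : Finset ℕ, F = (PP x).filter (fun p => ∀ l ∈ Ry R y, ¬ Idx s.B p l) := ⟨_, rfl⟩
  obtain ⟨T, hT⟩ : ∃ T : Finset ℕ, T = (PP x).filter (fun p : ℕ => ¬ (p : ℤ) ∣ s.B ∧
      ∀ l : ℕ, l.Prime → (l ∈ R ∨ (p : ℝ) ^ (1 / 2 - η p) ≤ l) → ¬ Idx s.B p l) := ⟨_, rfl⟩
  obtain ⟨Q, hQ⟩ : ∃ Q : ℕ → Prop, Q = fun l => (l ∈ R ∧ y < l) ∨ (x : ℝ) ^ (1 / 2 - 2 * δ : ℝ) ≤ l := ⟨_, rfl⟩
  rw [← hT]
  have hFx := hx₁ x k1
  rw [Real.dist_eq, ← hF, ← hP] at hFx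
  have hTF : T ⊆ F := by
    intro p hp
    rw [hT, mem_filter] at hp
    rw [hF, mem_filter]
    exact ⟨hp.1, fun l hl => hp.2.2 l (hR l (mem_Ry.1 hl).2) (Or.inl (mem_Ry.1 hl).2)⟩
  obtain ⟨Bd, hBd⟩ : ∃ Bd : Finset ℕ, Bd = (PP x).filter (fun p : ℕ => ¬ (p : ℤ) ∣ s.B ∧ ∃ l : ℕ, l.Prime ∧ Q l ∧ Idx s.B p l) :=
    ⟨_, rfl⟩
  have hcover : F ⊆ T ∪ (Bd ∪ (range (⌊(x : ℝ) ^ (1 - δ : ℝ)⌋₊ + 1) ∪ s.B.natAbs.divisors)) := by
    intro p hp
    rw [hF, mem_filter] at hp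
    have hpp := (mem_PP'.1 hp.1).2
    have hpx := (mem_PP'.1 hp.1).1
    by_cases hpB : (p : ℤ) ∣ s.B
    · apply mem_union_right
      apply mem_union_right
      apply mem_union_right
      rw [Nat.mem_divisors]
      exact ⟨Int.natCast_dvd.1 hpB, Int.natAbs_ne_zero.2 s.B0⟩
    by_cases hpsm : p < ⌊(x : ℝ) ^ (1 - δ : ℝ)⌋₊ + 1
    · apply mem_union_right
      apply mem_union_right
      apply mem_union_left
      exact mem_range.2 hpsm
    by_cases hpT : p ∈ T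
    · exact mem_union_left _ hpT
    apply mem_union_right
    apply mem_union_left
    rw [hBd, mem_filter]
    refine ⟨hp.1, hpB, ?_⟩
    rw [hT, mem_filter] at hpT
    have h1 : ¬ (∀ l : ℕ, l.Prime → (l ∈ R ∨ (p : ℝ) ^ (1 / 2 - η p) ≤ l) → ¬ Idx s.B p l) :=
      fun h => hpT ⟨hp.1, hpB, h⟩
    push Not at h1
    obtain ⟨l, hl, hl2, hl3⟩ := h1
    refine ⟨l, hl, ?_, hl3⟩
    rw [hQ]
    rcases hl2 with h | h
    · left
      refine ⟨h, ?_⟩
      by_contra hcon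
      push Not at hcon
      exact hp.2 l (mem_Ry.2 ⟨hcon, h⟩) hl3
    · right
      have hpge : (x : ℝ) ^ (1 - δ : ℝ) ≤ p := by
        have h2 : ⌊(x : ℝ) ^ (1 - δ : ℝ)⌋₊ + 1 ≤ p := by omega
        have h3 : ((⌊(x : ℝ) ^ (1 - δ : ℝ)⌋₊ : ℕ) : ℝ) + 1 ≤ p := by exact_mod_cast h2
        exact (Nat.lt_floor_add_one _).le.trans h3
      have hpP : P₀ ≤ p := by
        have h2 : (P₀ : ℝ) ≤ p := by linarith
        exact_mod_cast h2
      have hηp := hP₀ p hpP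
      have hp1 : (1 : ℝ) ≤ p := by exact_mod_cast hpp.one_le
      refine le_trans ?_ h
      calc (x : ℝ) ^ (1 / 2 - 2 * δ : ℝ) ≤ (x : ℝ) ^ ((1 - δ) * (1 / 2 - δ) : ℝ) := by
            apply Real.rpow_le_rpow_of_exponent_le hx1'.le
            nlinarith
        _ = ((x : ℝ) ^ (1 - δ : ℝ)) ^ (1 / 2 - δ : ℝ) := Real.rpow_mul hx0.le _ _
        _ ≤ (p : ℝ) ^ (1 / 2 - δ : ℝ) := Real.rpow_le_rpow (by positivity) hpge (by linarith)
        _ ≤ (p : ℝ) ^ (1 / 2 - η p : ℝ) := Real.rpow_le_rpow_of_exponent_le hp1 (by linarith)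
  have hbd := hx₂ x k2 Q
  rw [← hBd] at hbd
  have hQsum : ∑ l ∈ (PP (zz x)).filter Q, (1 / (l : ℝ)) ≤ ε / (8 * 1408) + 30 * δ := by
    have h1 : (PP (zz x)).filter Q ⊆ (PP (zz x)).filter (fun l => l ∈ R ∧ y < l) ∪
        (PP (zz x)).filter (fun l : ℕ => (x : ℝ) ^ (1 / 2 - 2 * δ : ℝ) ≤ l) := by
      intro l hl
      rw [mem_filter, hQ] at hl
      rw [mem_union, mem_filter, mem_filter]
      rcases hl.2 with h | h
      · exact Or.inl ⟨hl.1, h⟩
      · exact Or.inr ⟨hl.1, h⟩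
    have h2 := sum_le_sum_of_subset_of_nonneg (f := fun l : ℕ => 1 / (l : ℝ)) h1 fun _ _ _ => by positivity
    have h3 := sum_union_inter (s₁ := (PP (zz x)).filter (fun l => l ∈ R ∧ y < l))
      (s₂ := (PP (zz x)).filter (fun l : ℕ => (x : ℝ) ^ (1 / 2 - 2 * δ : ℝ) ≤ l)) (f := fun l : ℕ => 1 / (l : ℝ))
    have h4 : 0 ≤ ∑ l ∈ (PP (zz x)).filter (fun l => l ∈ R ∧ y < l) ∩
      (PP (zz x)).filter (fun l : ℕ => (x : ℝ) ^ (1 / 2 - 2 * δ : ℝ) ≤ l), 1 / (l : ℝ) :=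
      sum_nonneg fun _ _ => by positivity
    have h5 := hytail ((PP (zz x)).filter (fun l => l ∈ R ∧ y < l)) (fun l hl => (mem_filter.1 hl).2)
    have h6 := hx₃ x k3 ((PP (zz x)).filter (fun l : ℕ => (x : ℝ) ^ (1 / 2 - 2 * δ : ℝ) ≤ l))
      (fun l hl => ⟨(mem_PP'.1 (mem_filter.1 hl).1).2, (mem_PP'.1 (mem_filter.1 hl).1).1, (mem_filter.1 hl).2⟩)
    linarith
  have hc1 := (card_le_card hcover).trans ((card_union_le _ _).trans (add_le_add_right ((card_union_le _ _).trans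
    (add_le_add_right (card_union_le _ _) _)) _))
  rw [card_range] at hc1
  have hdiv : s.B.natAbs.divisors.card ≤ s.B.natAbs := Nat.card_divisors_le_self _
  have hc2 : (F.card : ℝ) ≤ T.card + (Bd.card + ((⌊(x : ℝ) ^ (1 - δ : ℝ)⌋₊ : ℝ) + 1 + s.B.natAbs)) := by
    have : F.card ≤ T.card + (Bd.card + ((⌊(x : ℝ) ^ (1 - δ : ℝ)⌋₊ + 1) + s.B.natAbs)) := by omega
    exact_mod_cast this
  have hfl : (⌊(x : ℝ) ^ (1 - δ : ℝ)⌋₊ : ℝ) ≤ (x : ℝ) ^ (1 - δ : ℝ) := Nat.floor_le (by positivity)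
  -- the bounds in terms of `P`
  have b1 : 352 * ((x : ℝ) / Real.log x) * ∑ l ∈ (PP (zz x)).filter Q, (1 / (l : ℝ)) ≤ ε / 4 * P := by
    have h0 : 0 ≤ ∑ l ∈ (PP (zz x)).filter Q, (1 / (l : ℝ)) := sum_nonneg fun _ _ => by positivity
    calc 352 * ((x : ℝ) / Real.log x) * ∑ l ∈ (PP (zz x)).filter Q, (1 / (l : ℝ)) ≤
          352 * (4 * P) * (ε / (8 * 1408) + 30 * δ) := by
            apply mul_le_mul _ hQsum h0 (by positivity)
            linarith
      _ = (ε / 8 + 1408 * (30 * δ)) * P := by ring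
      _ ≤ (ε / 8 + ε / 8) * P := mul_le_mul_of_nonneg_right (by linarith) hPpos.le
      _ = ε / 4 * P := by ring
  have b2 : 2 * (s.B.natAbs : ℝ) * ((x : ℝ) / Real.log x ^ 2) ≤ ε / 8 * P := by
    have h1 : (x : ℝ) / Real.log x ^ 2 = (x : ℝ) / Real.log x * (1 / Real.log x) := by
      field_simp
    rw [h1]
    have h2 : 2 * (s.B.natAbs : ℝ) * (1 / Real.log x) ≤ ε / 32 := by
      rw [mul_one_div, div_le_iff₀ hlog]
      rw [div_le_iff₀ hε] at m3
      linarith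
    calc 2 * (s.B.natAbs : ℝ) * ((x : ℝ) / Real.log x * (1 / Real.log x)) =
          (2 * (s.B.natAbs : ℝ) * (1 / Real.log x)) * ((x : ℝ) / Real.log x) := by ring
      _ ≤ ε / 32 * (4 * P) := mul_le_mul h2 hxP (by positivity) (by positivity)
      _ = ε / 8 * P := by ring
  have b3 : (x : ℝ) ^ (1 - δ : ℝ) ≤ ε / 32 * P := by
    have h1 : (x : ℝ) ^ (1 - δ : ℝ) * x ^ δ = x := by
      rw [← Real.rpow_add hx0]
      norm_num
    have h2 : (x : ℝ) ^ (1 - δ : ℝ) * Real.log x ≤ ε / 128 * x := by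
      calc (x : ℝ) ^ (1 - δ : ℝ) * Real.log x ≤ (x : ℝ) ^ (1 - δ : ℝ) * (ε / 128 * x ^ δ) :=
            mul_le_mul_of_nonneg_left m2 (by positivity)
        _ = ε / 128 * ((x : ℝ) ^ (1 - δ : ℝ) * x ^ δ) := by ring
        _ = _ := by rw [h1]
    have h3 : (x : ℝ) ^ (1 - δ : ℝ) * Real.log x ≤ (ε / 32 * P) * Real.log x := by
      refine h2.trans ?_
      have : (x : ℝ) ≤ 4 * (P * Real.log x) := by linarith
      calc ε / 128 * (x : ℝ) ≤ ε / 128 * (4 * (P * Real.log x)) := mul_le_mul_of_nonneg_left this (by positivity)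
        _ = _ := by ring
    exact le_of_mul_le_mul_right h3 hlog
  have b4 : (1 + s.B.natAbs : ℝ) ≤ ε / 16 * P := by
    have h1 := mul_le_mul_of_nonneg_left m4 (show 0 ≤ ε / 16 by positivity)
    have h2 : ε / 16 * ((1 + s.B.natAbs : ℝ) * (16 / ε)) = 1 + s.B.natAbs := by
      field_simp
    linarith
  have hcTF : (T.card : ℝ) ≤ F.card := by exact_mod_cast card_le_card hTF
  have hdiff : (F.card : ℝ) - T.card ≤ (ε / 4 + ε / 8 + ε / 32 + ε / 16) * P := by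
    have e : (ε / 4 + ε / 8 + ε / 32 + ε / 16) * P = ε / 4 * P + ε / 8 * P + ε / 32 * P + ε / 16 * P := by ring
    rw [e]
    linarith
  have hratio : |(T.card : ℝ) / P - (F.card : ℝ) / P| ≤ ε / 4 + ε / 8 + ε / 32 + ε / 16 := by
    rw [← sub_div, abs_div, abs_of_pos hPpos, div_le_iff₀ hPpos, abs_sub_comm, abs_of_nonneg (by linarith)]
    exact hdiff
  rw [Real.dist_eq]
  have t1 := abs_sub_le ((T.card : ℝ) / P) ((F.card : ℝ) / P) A
  have t2 := abs_sub_le ((F.card : ℝ) / P) (Ay y) A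
  linarith

end Pool.Agent.T6.H1.Th
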