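import Pool.Agent.TH893.BR.LimB
import Pool.Agent.W171.LG.Rd

/-! # Densities of the primes `p` such that no prime of a finite set divides the index of `B` modulo `p` -/

set_option autoImplicit false

namespace Pool.Agent.T6.H1.Th

open NumberField Filter Topology Finset
open Pool.Agent.W401.Cheb
open Pool.Agent.W171.LG
open Pool.Agent.TH893.BR
open Pool.Agent.H386R2.Artin (PP)
open Pool.Agent.H981R3.LN (ql Sk mem_Sk mem_PP Sk_prime)

/-- the prime `l` divides the index of the group generated by `B` modulo `p` -/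
def Idx (B : ℤ) (p l : ℕ) : Prop := l ∣ (p - 1) / orderOf ((B : ℤ) : ZMod p)

lemma idx_iff {p : ℕ} [hp : Fact p.Prime] {b : ZMod p} (hb : b ≠ 0) {l : ℕ} (hl : 0 < l) :
    l ∣ (p - 1) / orderOf b ↔ (l ∣ p - 1 ∧ b ^ ((p - 1) / l) = 1) := by
  have hp1 : 0 < p - 1 := by have := hp.out.two_le; omega
  have ho : orderOf b ∣ p - 1 := orderOf_dvd_of_pow_eq_one (ZMod.pow_card_sub_one_eq_one hb)
  obtain ⟨m, hm⟩ := ho
  have ho0 : 0 < orderOf b := by
    rcases Nat.eq_zero_or_pos (orderOf b) with h | h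
    · rw [h, zero_mul] at hm; omega
    · exact h
  have e1 : (p - 1) / orderOf b = m := by
    rw [hm, Nat.mul_div_cancel_left _ ho0]
  rw [e1]
  constructor
  · rintro ⟨t, rfl⟩
    refine ⟨⟨orderOf b * t, by rw [hm]; ring⟩, ?_⟩
    have e2 : (p - 1) / l = orderOf b * t := by
      rw [hm, show orderOf b * (l * t) = l * (orderOf b * t) by ring, Nat.mul_div_cancel_left _ hl]
    rw [e2, pow_mul, pow_orderOf_eq_one, one_pow]
  · rintro ⟨⟨t, ht⟩, h⟩
    have e2 : (p - 1) / l = t := by rw [ht, Nat.mul_div_cancel_left _ hl]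
    rw [e2] at h
    obtain ⟨u, hu⟩ := orderOf_dvd_of_pow_eq_one h
    refine ⟨u, ?_⟩
    have h3 : orderOf b * m = orderOf b * (l * u) := by rw [← hm, ht, hu]; ring
    exact Nat.eq_of_mul_eq_mul_left ho0 h3

lemma PW_idx (s : Bs) {p : ℕ} [hp : Fact p.Prime] (hpB : s.B.natAbs < p) {l : ℕ} (hl : 0 < l) :
    PW (Subgroup.zpowers s.u) l p ↔ Idx s.B p l := by
  have hne : ((s.B : ℤ) : ZMod p) ≠ 0 := by
    intro h
    rw [ZMod.intCast_zmod_eq_zero_iff_dvd, Int.natCast_dvd] at h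
    have := Nat.le_of_dvd (Int.natAbs_pos.2 s.B0) h
    omega
  have hrd : rd p (s.u : ℚ) = ((s.B : ℤ) : ZMod p) := by
    unfold rd
    rw [s.u_coe, Rat.num_intCast, Rat.den_intCast]
    simp
  have hUn : Un p (s.u : ℚ) := by
    unfold Un
    rw [s.u_coe, Rat.num_intCast, Rat.den_intCast]
    exact ⟨hne, by simp⟩
  unfold Idx
  rw [idx_iff hne hl, Subgroup.zpowers_eq_closure, PW_closure]
  · simp only [Set.mem_singleton_iff, forall_eq, hrd]
  · intro w hw
    rw [Set.mem_singleton_iff] at hw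
    rw [hw]
    exact hUn

open Classical in
lemma dLr_zero (s : Bs) (R : Finset ℕ) (hR : ∀ l ∈ R, l.Prime) :
    dLr Q0 Set.univ (Subgroup.zpowers s.u) ⊥ 1 R 0 =
      (if s.T ⊆ R then s.cf else 1) * ∏ l ∈ R, (1 - 1 / ((l : ℝ) * ((l : ℝ) - 1))) := by
  unfold dLr
  have hPP : PP 0 = ∅ := by
    ext l
    rw [mem_PP]
    simp only [notMem_empty, iff_false]
    rintro ⟨h1, h2⟩
    have := h2.pos
    omega
  rw [hPP]
  have hset : (∅ : Finset ℕ).powerset.filter (fun K => Disjoint K R) = {∅} := by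
    ext K
    simp only [powerset_empty, mem_filter, mem_singleton]
    constructor
    · exact fun h => h.1
    · rintro rfl
      exact ⟨rfl, disjoint_empty_left _⟩
  rw [hset, sum_singleton]
  simp only [card_empty, pow_zero, prod_empty, Nat.cast_one, div_one, one_mul]
  set x : ℕ → ℝ := fun l => -(1 / ((l : ℝ) * ((l : ℝ) - 1))) with hx
  have e1 : ∀ J ∈ R.powerset, (-1 : ℝ) ^ #J * dn Q0 Set.univ (Subgroup.zpowers s.u) ⊥ 1 J ∅ =
      ∏ l ∈ J, x l + (if s.T ⊆ J then (1 : ℝ) else 0) * ∏ l ∈ J, x l := by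
    intro J hJ
    rw [mem_powerset] at hJ
    rw [dn_B s J ∅ (fun l hl => hR l (hJ hl)) (fun l hl => absurd hl (notMem_empty _))
      (disjoint_empty_right _), union_empty, prod_empty, mul_one]
    have e3 : ∏ l ∈ J, x l = (-1 : ℝ) ^ #J * ∏ l ∈ J, (1 / ((l : ℝ) * ((l : ℝ) - 1))) := by
      simp only [hx]
      rw [Finset.prod_neg]
    have hcond : (2 ∈ J ∧ s.PD ⊆ J) ↔ s.T ⊆ J := by
      unfold Bs.T
      rw [Finset.insert_subset_iff]
    rw [e3]
    by_cases h : s.T ⊆ J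
    · rw [if_pos (hcond.2 h), if_pos h]; ring
    · rw [if_neg (fun h' => h (hcond.1 h')), if_neg h]; ring
  rw [sum_congr rfl e1, sum_add_distrib]
  have e5 : ∑ S ∈ R.powerset, ∏ l ∈ S, x l = ∏ l ∈ R, (1 - 1 / ((l : ℝ) * ((l : ℝ) - 1))) := by
    have h1 := Finset.prod_add (fun l => x l) (fun _ => (1 : ℝ)) R
    simp only [Finset.prod_const_one, mul_one] at h1
    rw [← h1]
    refine Finset.prod_congr rfl fun l _ => ?_
    simp only [hx]
    ring
  have hxne : ∀ l ∈ R, 1 + x l ≠ 0 := by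
    intro l hl
    have hl2 : (2 : ℝ) ≤ l := by exact_mod_cast (hR l hl).two_le
    simp only [hx]
    have h2 : (2 : ℝ) ≤ (l : ℝ) * ((l : ℝ) - 1) := by nlinarith
    have h3 : 1 / ((l : ℝ) * ((l : ℝ) - 1)) ≤ 1 / 2 := by
      apply one_div_le_one_div_of_le
      · norm_num
      · exact h2
    have : (0 : ℝ) < 1 + -(1 / ((l : ℝ) * ((l : ℝ) - 1))) := by linarith
    exact this.ne'
  rw [e5]
  by_cases hT : s.T ⊆ R
  · rw [sum_contain _ _ hT x hxne, if_pos hT]
    have hp := prod_T s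
    have e6 : ∏ l ∈ s.T, (x l / (1 + x l)) = s.cf - 1 := hp
    have e7 : ∏ l ∈ R, (1 + x l) = ∏ l ∈ R, (1 - 1 / ((l : ℝ) * ((l : ℝ) - 1))) := by
      refine Finset.prod_congr rfl fun l _ => ?_
      simp only [hx]
      ring
    rw [e6, e7]
    ring
  · rw [if_neg hT, one_mul]
    have : ∑ S ∈ R.powerset, (if s.T ⊆ S then (1 : ℝ) else 0) * ∏ l ∈ S, x l = 0 := by
      apply sum_eq_zero
      intro S hS
      rw [mem_powerset] at hS
      rw [if_neg (fun h => hT (h.trans hS)), zero_mul]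
    rw [this, add_zero]

open Classical in
/-- **finitely many primes `l`** -/
theorem dens_fin (s : Bs) (R : Finset ℕ) (hR : ∀ l ∈ R, l.Prime) :
    Tendsto (M fun p => if ∀ l ∈ R, ¬ Idx s.B p l then 1 else 0) atTop
      (𝓝 ((if s.T ⊆ R then s.cf else 1) * ∏ l ∈ R, (1 - 1 / ((l : ℝ) * ((l : ℝ) - 1))))) := by
  have h := avg_trunc Q0 Set.univ (Subgroup.zpowers s.u) (⊥ : Subgroup ℚˣ) 1 R
    (fun _ _ _ => Set.mem_univ _)
    ⟨{s.u}, by simp [Subgroup.zpowers_eq_closure]⟩ ⟨∅, by simp⟩ hR 0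
  rw [dLr_zero s R hR] at h
  obtain ⟨D, hD, hDp⟩ := GF_triv
  refine M_congr (D := D * (s.B.natAbs).factorial) (by positivity) ?_ h
  intro p hp hpD
  have : Fact p.Prime := ⟨hp⟩
  have hpB : s.B.natAbs < p := by
    by_contra hcon
    push Not at hcon
    exact hpD (Dvd.dvd.mul_left ((Nat.Prime.dvd_factorial hp).2 hcon) _)
  have hGF : GF Q0 Set.univ p := hDp p hp fun h => hpD (Dvd.dvd.mul_right h _)
  have hempty : (Tp (⊥ : Subgroup ℚˣ) 1 R p).filter (fun l => l ≤ 0) = ∅ := by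
    rw [filter_eq_empty_iff]
    intro l hl h0
    have : l ∈ Sk 1 (p - 1) := by
      unfold Tp at hl
      exact (mem_filter.1 hl).1
    have := (Sk_prime this).pos
    omega
  rw [hempty]
  have hg : gT 1 ∅ = 1 := by unfold gT; simp
  rw [hg]
  have hiff : gd Q0 Set.univ (Subgroup.zpowers s.u) 1 R p ↔ ∀ l ∈ R, ¬ Idx s.B p l := by
    unfold gd
    constructor
    · rintro ⟨-, h1⟩ l hl h2
      apply h1 l hl
      rw [ql_one]
      exact (PW_idx s hpB (hR l hl).pos).2 h2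
    · intro h1
      refine ⟨hGF, fun l hl h2 => h1 l hl ?_⟩
      rw [ql_one] at h2
      exact (PW_idx s hpB (hR l hl).pos).1 h2
  by_cases h1 : ∀ l ∈ R, ¬ Idx s.B p l
  · rw [if_pos h1, if_pos (hiff.2 h1)]
  · rw [if_neg h1, if_neg (fun h2 => h1 (hiff.1 h2))]

end Pool.Agent.T6.H1.Th
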