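import Pool.Agent.H692R2.USS.T1
import Pool.Agent.H305R2.MertensM
import Pool.Agent.T6.H1.Th.Dens

/-! # The primes `p` whose index of `B` is divisible by a large prime of a thin set -/

set_option autoImplicit false

namespace Pool.Agent.T6.H1.Th

open Filter Topology Finset
open Pool.Agent.H386R2.Artin (PP)

lemma mem_PP' {x p : ℕ} : p ∈ PP x ↔ p ≤ x ∧ p.Prime := Pool.Agent.H981R3.LN.mem_PP

lemma card_pf (n : ℕ) (hn : n ≠ 0) : 2 ^ n.primeFactors.card ≤ n := by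
  calc 2 ^ n.primeFactors.card = ∏ _p ∈ n.primeFactors, 2 := by rw [prod_const]
    _ ≤ ∏ p ∈ n.primeFactors, p := Finset.prod_le_prod' fun p hp => (Nat.prime_of_mem_primeFactors hp).two_le
    _ ≤ n := Nat.le_of_dvd (Nat.pos_of_ne_zero hn) (Nat.prod_primeFactors_dvd n)

/-- few primes divide one of the numbers `B ^ m - 1` with small `m` -/
lemma hooley (B : ℤ) (hB : 2 ≤ B.natAbs) (S : Finset ℕ) (Y : ℕ)
    (hS : ∀ p ∈ S, p.Prime ∧ ∃ m, 1 ≤ m ∧ m ≤ Y ∧ ((B : ℤ) : ZMod p) ^ m = 1) :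
    S.card ≤ 2 * B.natAbs * Y ^ 2 := by
  classical
  have hne : ∀ m, 1 ≤ m → (B ^ m - 1).natAbs ≠ 0 := by
    intro m hm h
    rw [Int.natAbs_eq_zero, sub_eq_zero] at h
    have h1 : (B ^ m).natAbs = 1 := by rw [h]; rfl
    rw [Int.natAbs_pow] at h1
    have h2 : 2 ^ m ≤ B.natAbs ^ m := Nat.pow_le_pow_left hB m
    have h3 : 2 ^ 1 ≤ 2 ^ m := Nat.pow_le_pow_right (by norm_num) hm
    omega
  have hsub : S ⊆ (Icc 1 Y).biUnion (fun m => (B ^ m - 1).natAbs.primeFactors) := by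
    intro p hp
    obtain ⟨hpp, m, hm1, hm2, hm⟩ := hS p hp
    rw [mem_biUnion]
    refine ⟨m, mem_Icc.2 ⟨hm1, hm2⟩, ?_⟩
    rw [Nat.mem_primeFactors]
    refine ⟨hpp, ?_, hne m hm1⟩
    have : Fact p.Prime := ⟨hpp⟩
    rw [← Int.natCast_dvd, ← ZMod.intCast_zmod_eq_zero_iff_dvd]
    push_cast
    rw [hm, sub_self]
  have hc : ∀ m ∈ Icc 1 Y, ((B ^ m - 1).natAbs.primeFactors).card ≤ 2 * B.natAbs * Y := by
    intro m hm
    rw [mem_Icc] at hm
    have h1 := card_pf _ (hne m hm.1)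
    have h2 : (B ^ m - 1).natAbs ≤ B.natAbs ^ m + 1 := by
      have := Int.natAbs_sub_le (B ^ m) 1
      rw [Int.natAbs_pow] at this
      simpa using this
    have h3 : B.natAbs ^ m + 1 ≤ B.natAbs ^ (2 * m) := by
      have h4 : 2 ≤ B.natAbs ^ m := by
        calc 2 ≤ B.natAbs := hB
          _ = B.natAbs ^ 1 := (pow_one _).symm
          _ ≤ B.natAbs ^ m := Nat.pow_le_pow_right (by omega) hm.1
      rw [two_mul, pow_add]
      nlinarith
    have h5 : B.natAbs ^ (2 * m) ≤ 2 ^ (B.natAbs * (2 * m)) := by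
      rw [pow_mul 2]
      exact Nat.pow_le_pow_left (Nat.lt_two_pow_self).le _
    have h6 : 2 ^ ((B ^ m - 1).natAbs.primeFactors).card ≤ 2 ^ (B.natAbs * (2 * m)) :=
      h1.trans (h2.trans (h3.trans h5))
    have h7 := (Nat.pow_le_pow_iff_right (by norm_num : 1 < 2)).1 h6
    calc _ ≤ B.natAbs * (2 * m) := h7
      _ = 2 * B.natAbs * m := by ring
      _ ≤ 2 * B.natAbs * Y := Nat.mul_le_mul_left _ hm.2
  calc S.card ≤ ((Icc 1 Y).biUnion (fun m => (B ^ m - 1).natAbs.primeFactors)).card := card_le_card hsub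
    _ ≤ ∑ m ∈ Icc 1 Y, ((B ^ m - 1).natAbs.primeFactors).card := card_biUnion_le
    _ ≤ ∑ _m ∈ Icc 1 Y, 2 * B.natAbs * Y := sum_le_sum hc
    _ = 2 * B.natAbs * Y ^ 2 := by
        rw [sum_const, Nat.card_Icc, smul_eq_mul, Nat.add_sub_cancel]
        ring

/-- the Brun-Titchmarsh inequality for the class of `1` modulo a prime -/
lemma bt1 (x l : ℕ) (hl : l.Prime) (hx : 2 ≤ x) (hlx : (l : ℝ) ≤ x)
    (hxl : (x : ℝ) ^ (1 / 4 : ℝ) ≤ (x : ℝ) / l) :
    (((PP x).filter (fun p => l ∣ p - 1)).card : ℝ) ≤ 352 * ((x : ℝ) / Real.log x) * (1 / (l : ℝ)) := by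
  have hl0 : (0 : ℝ) < l := by exact_mod_cast hl.pos
  have hx1 : (1 : ℝ) < x := by exact_mod_cast (by omega : 1 < x)
  have hx0 : (0 : ℝ) < x := by linarith
  have hlog : 0 < Real.log x := Real.log_pos hx1
  obtain ⟨N, hN⟩ : ∃ N : ℕ, N = x / l + 1 := ⟨_, rfl⟩
  have hlx' : l ≤ x := by exact_mod_cast hlx
  have hdiv : 1 ≤ x / l := (Nat.one_le_div_iff hl.pos).2 hlx'
  have hN2 : 2 ≤ N := by omega
  have hsub : ((PP x).filter (fun p => l ∣ p - 1)) ⊆
      ((range N).filter (fun k => (1 + k * l).Prime)).image (fun k => 1 + k * l) := by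
    intro p hp
    rw [mem_filter, mem_PP'] at hp
    obtain ⟨⟨h1, h2⟩, k, hk⟩ := hp
    rw [mem_image]
    have hpk : 1 + k * l = p := by
      have := h2.one_le
      rw [mul_comm k l]
      omega
    refine ⟨k, ?_, hpk⟩
    rw [mem_filter, mem_range, hpk]
    refine ⟨?_, h2⟩
    rw [hN, Nat.lt_succ_iff, Nat.le_div_iff_mul_le hl.pos]
    omega
  have hcard : (((PP x).filter (fun p => l ∣ p - 1)).card : ℝ) ≤
      (((range N).filter (fun k => (1 + k * l).Prime)).card : ℝ) := by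
    exact_mod_cast (card_le_card hsub).trans card_image_le
  have hbt := Pool.Agent.H692R2.USS.t1_brun_titchmarsh 1 l N hN2 hl.one_le
  refine hcard.trans (hbt.trans ?_)
  have hNle : (N : ℝ) ≤ 2 * (x / l) := by
    have h1 : ((x / l : ℕ) : ℝ) ≤ (x : ℝ) / l := Nat.cast_div_le
    have h2 : (1 : ℝ) ≤ (x : ℝ) / l := by rw [le_div_iff₀ hl0]; linarith
    rw [hN]; push_cast; linarith
  have hNge : (x : ℝ) / l ≤ N := by
    have h1 := Nat.lt_div_mul_add (a := x) hl.pos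
    have h2 : x < N * l := by rw [hN, Nat.add_mul, one_mul]; exact h1
    rw [div_le_iff₀ hl0]
    exact_mod_cast h2.le
  have hlogN : 1 / 4 * Real.log x ≤ Real.log N := by
    rw [← Real.log_rpow hx0]
    exact Real.log_le_log (by positivity) (hxl.trans hNge)
  have htot : (l : ℝ) / Nat.totient l ≤ 2 := by
    rw [Nat.totient_prime hl, Nat.cast_sub hl.one_le, Nat.cast_one]
    have : (2 : ℝ) ≤ l := by exact_mod_cast hl.two_le
    rw [div_le_iff₀ (by linarith)]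
    linarith
  have hlogN0 : 0 < Real.log N := by linarith
  have hN0 : (0 : ℝ) ≤ N := Nat.cast_nonneg _
  calc 22 * ((l : ℝ) / Nat.totient l) * N / Real.log N ≤ 22 * 2 * (2 * (x / l)) / (1 / 4 * Real.log x) := by
        apply div_le_div₀ (by positivity) _ (by positivity) hlogN
        apply mul_le_mul _ hNle hN0 (by norm_num)
        linarith
    _ = 352 * ((x : ℝ) / Real.log x) * (1 / (l : ℝ)) := by
        field_simp
        norm_num

/-- the upper end of the range of the primes `l` for which the sieve is used -/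
noncomputable def zz (x : ℕ) : ℕ := ⌊Real.sqrt x * Real.log x⌋₊

open Classical in
/-- **the tail** -/
theorem tail (B : ℤ) (hB : 2 ≤ B.natAbs) : ∃ X : ℕ, 4 ≤ X ∧ ∀ x : ℕ, X ≤ x → ∀ Q : ℕ → Prop,
    (((PP x).filter (fun p : ℕ => ¬ (p : ℤ) ∣ B ∧ ∃ l : ℕ, l.Prime ∧ Q l ∧ Idx B p l)).card : ℝ) ≤
      352 * ((x : ℝ) / Real.log x) * ∑ l ∈ (PP (zz x)).filter Q, (1 / (l : ℝ)) +
      2 * B.natAbs * ((x : ℝ) / Real.log x ^ 2) := by
  have hev : ∀ᶠ x : ℝ in atTop, Real.log x ≤ x ^ (1 / 4 : ℝ) := by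
    have h1 := (isLittleO_log_rpow_atTop (show (0 : ℝ) < 1 / 4 by norm_num)).bound (show (0 : ℝ) < 1 by norm_num)
    filter_upwards [h1, eventually_ge_atTop (1 : ℝ)] with x hx hx1
    rw [Real.norm_of_nonneg (Real.log_nonneg hx1), Real.norm_of_nonneg (by positivity), one_mul] at hx
    exact hx
  obtain ⟨X, hX⟩ := eventually_atTop.1 ((tendsto_natCast_atTop_atTop (R := ℝ)).eventually hev)
  refine ⟨max X 4, le_max_right _ _, fun x hx Q => ?_⟩
  have hx4 : 4 ≤ x := (le_max_right _ _).trans hx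
  have hlogx := hX x ((le_max_left _ _).trans hx)
  have hx4' : (4 : ℝ) ≤ x := by exact_mod_cast hx4
  have hx0 : (0 : ℝ) < x := by linarith
  have hlog : 1 ≤ Real.log x := by
    rw [Real.le_log_iff_exp_le hx0]
    linarith [Real.exp_one_lt_d9]
  have hlog0 : 0 < Real.log x := by linarith
  have hs0 : 0 < Real.sqrt x := Real.sqrt_pos.2 hx0
  have hss : Real.sqrt x * Real.sqrt x = x := Real.mul_self_sqrt hx0.le
  obtain ⟨Y, hY⟩ : ∃ Y : ℕ, Y = ⌊Real.sqrt x / Real.log x⌋₊ := ⟨_, rfl⟩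
  have hY1 : (Y : ℝ) ≤ Real.sqrt x / Real.log x := by
    rw [hY]
    exact Nat.floor_le (by positivity)
  obtain ⟨S1, hS1⟩ : ∃ S1, S1 = (PP x).filter (fun p => ∃ m, 1 ≤ m ∧ m ≤ Y ∧ ((B : ℤ) : ZMod p) ^ m = 1) := ⟨_, rfl⟩
  have hcov : (PP x).filter (fun p : ℕ => ¬ (p : ℤ) ∣ B ∧ ∃ l : ℕ, l.Prime ∧ Q l ∧ Idx B p l) ⊆
      S1 ∪ ((PP (zz x)).filter Q).biUnion (fun l => (PP x).filter (fun p => l ∣ p - 1)) := by
    intro p hp
    rw [mem_filter] at hp
    obtain ⟨hp1, hpB, l, hl, hQ, hidx⟩ := hp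
    have hpp := (mem_PP'.1 hp1).2
    have hpx := (mem_PP'.1 hp1).1
    have : Fact p.Prime := ⟨hpp⟩
    have hb : ((B : ℤ) : ZMod p) ≠ 0 := by
      rw [Ne, ZMod.intCast_zmod_eq_zero_iff_dvd]
      exact hpB
    have hidx' := (idx_iff hb hl.pos).1 hidx
    rw [mem_union]
    by_cases hlz : l ≤ zz x
    · right
      rw [mem_biUnion]
      exact ⟨l, mem_filter.2 ⟨mem_PP'.2 ⟨hlz, hl⟩, hQ⟩, mem_filter.2 ⟨hp1, hidx'.1⟩⟩
    · left
      rw [hS1, mem_filter]
      refine ⟨hp1, (p - 1) / l, ?_, ?_, hidx'.2⟩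
      · have h1 : 0 < p - 1 := by have := hpp.two_le; omega
        exact Nat.div_pos (Nat.le_of_dvd h1 hidx'.1) hl.pos
      · rw [hY]
        apply Nat.le_floor
        push Not at hlz
        have h1 : Real.sqrt x * Real.log x < l := (Nat.floor_lt (by positivity)).1 hlz
        have h2 : (((p - 1) / l : ℕ) : ℝ) ≤ ((p - 1 : ℕ) : ℝ) / l := Nat.cast_div_le
        refine h2.trans ?_
        have h3 : ((p - 1 : ℕ) : ℝ) ≤ x := by exact_mod_cast (by omega : p - 1 ≤ x)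
        have hl0 : (0 : ℝ) < l := by exact_mod_cast hl.pos
        rw [div_le_div_iff₀ hl0 hlog0]
        calc ((p - 1 : ℕ) : ℝ) * Real.log x ≤ x * Real.log x := mul_le_mul_of_nonneg_right h3 hlog0.le
          _ = Real.sqrt x * (Real.sqrt x * Real.log x) := by rw [← mul_assoc, hss]
          _ ≤ Real.sqrt x * l := mul_le_mul_of_nonneg_left h1.le hs0.le
  have hc1 : (S1.card : ℝ) ≤ 2 * B.natAbs * ((x : ℝ) / Real.log x ^ 2) := by
    have h1 := hooley B hB S1 Y (by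
      intro p hp
      rw [hS1, mem_filter] at hp
      exact ⟨(mem_PP'.1 hp.1).2, hp.2⟩)
    have h2 : (S1.card : ℝ) ≤ 2 * B.natAbs * (Y : ℝ) ^ 2 := by exact_mod_cast h1
    refine h2.trans (mul_le_mul_of_nonneg_left ?_ (by positivity))
    calc (Y : ℝ) ^ 2 ≤ (Real.sqrt x / Real.log x) ^ 2 := pow_le_pow_left₀ (Nat.cast_nonneg _) hY1 2
      _ = (x : ℝ) / Real.log x ^ 2 := by rw [div_pow, Real.sq_sqrt hx0.le]
  have hc2 : ∀ l ∈ (PP (zz x)).filter Q, (((PP x).filter (fun p => l ∣ p - 1)).card : ℝ) ≤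
      352 * ((x : ℝ) / Real.log x) * (1 / (l : ℝ)) := by
    intro l hl
    rw [mem_filter, mem_PP'] at hl
    have hlp := hl.1.2
    have hl0 : (0 : ℝ) < l := by exact_mod_cast hlp.pos
    have h1 : (l : ℝ) ≤ Real.sqrt x * Real.log x := by
      have : (l : ℝ) ≤ (zz x : ℝ) := by exact_mod_cast hl.1.1
      exact this.trans (Nat.floor_le (by positivity))
    have h14 : Real.sqrt x = (x : ℝ) ^ (1 / 4 : ℝ) * (x : ℝ) ^ (1 / 4 : ℝ) := by
      rw [← Real.rpow_add hx0, Real.sqrt_eq_rpow]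
      norm_num
    have h2 : (l : ℝ) * (x : ℝ) ^ (1 / 4 : ℝ) ≤ x := by
      calc (l : ℝ) * (x : ℝ) ^ (1 / 4 : ℝ) ≤ Real.sqrt x * Real.log x * (x : ℝ) ^ (1 / 4 : ℝ) :=
            mul_le_mul_of_nonneg_right h1 (by positivity)
        _ ≤ Real.sqrt x * (x : ℝ) ^ (1 / 4 : ℝ) * (x : ℝ) ^ (1 / 4 : ℝ) := by
            apply mul_le_mul_of_nonneg_right _ (by positivity)
            exact mul_le_mul_of_nonneg_left hlogx hs0.le
        _ = x := by rw [mul_assoc, ← h14, hss]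
    have h3 : (1 : ℝ) ≤ (x : ℝ) ^ (1 / 4 : ℝ) := Real.one_le_rpow (by linarith) (by norm_num)
    apply bt1 x l hlp (by omega)
    · calc (l : ℝ) = l * 1 := (mul_one _).symm
        _ ≤ (l : ℝ) * (x : ℝ) ^ (1 / 4 : ℝ) := mul_le_mul_of_nonneg_left h3 hl0.le
        _ ≤ x := h2
    · rw [le_div_iff₀ hl0, mul_comm]
      exact h2
  have h1 := (card_le_card hcov).trans (card_union_le _ _)
  have h2 : ((((PP (zz x)).filter Q).biUnion (fun l => (PP x).filter (fun p => l ∣ p - 1))).card : ℝ) ≤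
      ∑ l ∈ (PP (zz x)).filter Q, (((PP x).filter (fun p => l ∣ p - 1)).card : ℝ) := by
    exact_mod_cast card_biUnion_le
  have h3 := h2.trans (sum_le_sum hc2)
  rw [← mul_sum] at h3
  have h4 : (((PP x).filter (fun p : ℕ => ¬ (p : ℤ) ∣ B ∧ ∃ l : ℕ, l.Prime ∧ Q l ∧ Idx B p l)).card : ℝ) ≤
      (S1.card : ℝ) +
      ((((PP (zz x)).filter Q).biUnion (fun l => (PP x).filter (fun p => l ∣ p - 1))).card : ℝ) := by
    exact_mod_cast h1
  linarith

end Pool.Agent.T6.H1.Th
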